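import Pool.Agent.Helper33.KD4.Bump2
import Pool.Agent.Helper33.KD4.WrapDefs

/-! KD project (MP_019250_an), Part IV.8a: the principal value of a symmetric kernel is the second
difference integral. -/

namespace KD.IV

open MeasureTheory Set Filter Topology

variable {d : ℕ}

/-- **IV.8a PV**: the principal value of a symmetric kernel is the second difference integral. -/
theorem PV_pf (hd : 1 ≤ d) {s : ℝ} (hs : 0 < s) (hs1 : s < 1) {g : Vd d → ℝ} (hg : Measurable g)
    {A : ℝ} (hA : ∀ v, |g v| ≤ A) {v : Vd d} {C : ℝ}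
    (hC : ∀ w, |sd g v w| ≤ C * min 1 (‖w‖ ^ 2)) {k : Vd d → ℝ} (hk : Measurable k)
    (hke : ∀ w, k (-w) = k w) {Lam : ℝ} (hkb : ∀ w, w ≠ 0 → |k w| ≤ Lam * kr s w)
    {N : Vd d → ℝ} (hN : Measurable N) (hNe : ∀ w, N (-w) = N w) (hN0 : ∀ w, w ≠ 0 → 0 < N w)
    {c : ℝ} (hc : 0 < c) (hNc : ∀ w, N w ≤ c * ‖w‖) :
    Tendsto (fun ε : ℝ => ∫ w in {w : Vd d | ε ≤ N w}, (g (v + w) - g v) * k w) (𝓝[>] 0)
      (𝓝 ((1 / 2) * ∫ w, sd g v w * k w)) := by
  haveI : Nonempty (Fin d) := ⟨⟨0, hd⟩⟩
  have hae : ∀ᵐ w : Vd d, w ≠ 0 := by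
    rw [ae_iff]
    simp
  have hmS : ∀ ε : ℝ, MeasurableSet {w : Vd d | ε ≤ N w} :=
    fun ε => measurableSet_le measurable_const hN
  have hmsd : Measurable (sd g v) := by
    unfold sd
    fun_prop
  have hb0 : Integrable (fun w : Vd d => C * Lam * (min 1 (‖w‖ ^ 2) * kr s w)) :=
    (integrable_wt hd hs hs1).const_mul _
  have hdom : ∀ w : Vd d, w ≠ 0 →
      |sd g v w * k w| ≤ C * Lam * (min 1 (‖w‖ ^ 2) * kr s w) := by
    intro w hw
    rw [abs_mul]
    have h1 := hC w
    have h2 := hkb w hw
    calc |sd g v w| * |k w| ≤ (C * min 1 (‖w‖ ^ 2)) * (Lam * kr s w) :=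
          mul_le_mul h1 h2 (abs_nonneg _) ((abs_nonneg _).trans h1)
      _ = _ := by ring
  -- symmetrisation
  have hhalf : ∀ ε : ℝ, 0 < ε → ∫ w in {w : Vd d | ε ≤ N w}, (g (v + w) - g v) * k w =
      (1 / 2) * ∫ w, ({w : Vd d | ε ≤ N w}).indicator (fun w => sd g v w * k w) w := by
    intro ε hε
    set S : Set (Vd d) := {w : Vd d | ε ≤ N w} with hS
    set F : Vd d → ℝ := fun w => (g (v + w) - g v) * k w with hF
    have hmF : Measurable F := by
      have h1 : Measurable fun w : Vd d => g (v + w) - g v := by fun_prop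
      exact h1.mul hk
    have hsub : S ⊆ {w : Vd d | ε / (2 * c) < ‖w‖} := by
      intro w hw
      have hw' : ε ≤ N w := hw
      have h1 := hNc w
      have h2 : ε / (2 * c) < ‖w‖ := by
        rw [div_lt_iff₀ (by positivity)]
        nlinarith
      exact h2
    have hFi : IntegrableOn F S := by
      have h1 : IntegrableOn (fun w : Vd d => 2 * A * Lam * kr s w) S :=
        ((integrable_far hd hs hs1 (by positivity)).mono_set hsub).const_mul _
      refine h1.mono' hmF.aestronglyMeasurable ?_
      filter_upwards [ae_restrict_of_ae hae] with w hw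
      rw [Real.norm_eq_abs, hF, abs_mul]
      have h2 := hkb w hw
      have h3 : |g (v + w) - g v| ≤ 2 * A := by
        have h4 := abs_le.1 (hA (v + w))
        have h5 := abs_le.1 (hA v)
        rw [abs_le]
        constructor <;> linarith [h4.1, h4.2, h5.1, h5.2]
      calc |g (v + w) - g v| * |k w| ≤ (2 * A) * (Lam * kr s w) :=
            mul_le_mul h3 h2 (abs_nonneg _) ((abs_nonneg _).trans h3)
        _ = _ := by ring
    have hneg : ∫ w, S.indicator F (-w) = ∫ w, S.indicator F w := integral_neg_eq_self _ _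
    have hsum : ∀ w, S.indicator F w + S.indicator F (-w) =
        S.indicator (fun w => sd g v w * k w) w := by
      intro w
      have hiff : -w ∈ S ↔ w ∈ S := by
        change ε ≤ N (-w) ↔ ε ≤ N w
        rw [hNe]
      by_cases hw : w ∈ S
      · rw [indicator_of_mem hw, indicator_of_mem (hiff.2 hw), indicator_of_mem hw]
        simp only [hF, sd, hke, ← sub_eq_add_neg]
        ring
      · rw [indicator_of_notMem hw, indicator_of_notMem (fun h => hw (hiff.1 h)),
          indicator_of_notMem hw, add_zero]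
    have hL : ∫ w in S, (g (v + w) - g v) * k w = ∫ w, S.indicator F w :=
      (integral_indicator (hmS ε)).symm
    have hIi : Integrable (S.indicator F) := (integrable_indicator_iff (hmS ε)).2 hFi
    have hIn : Integrable (fun w => S.indicator F (-w)) := hIi.comp_neg
    have h7 : ∫ w, S.indicator (fun w => sd g v w * k w) w =
        (∫ w, S.indicator F w) + ∫ w, S.indicator F (-w) := by
      rw [← integral_add hIi hIn]
      exact integral_congr_ae (Eventually.of_forall fun w => (hsum w).symm)
    have h9 : ∫ w, S.indicator (fun w => sd g v w * k w) w = 2 * ∫ w, S.indicator F w := by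
      rw [h7, hneg, two_mul]
    have h10 : ∀ a b : ℝ, b = 2 * a → a = (1 / 2) * b := by
      intro a b hab
      rw [hab]
      ring
    exact hL.trans (h10 _ _ h9)
  have hlim : Tendsto (fun ε : ℝ => ∫ w, ({w : Vd d | ε ≤ N w}).indicator
      (fun w => sd g v w * k w) w) (𝓝[>] 0) (𝓝 (∫ w, sd g v w * k w)) := by
    refine tendsto_integral_filter_of_dominated_convergence
      (fun w => C * Lam * (min 1 (‖w‖ ^ 2) * kr s w)) ?_ ?_ hb0 ?_
    · exact Eventually.of_forall fun ε =>
        ((hmsd.mul hk).indicator (hmS ε)).aestronglyMeasurable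
    · refine Eventually.of_forall fun ε => hae.mono fun w hw => ?_
      refine (norm_indicator_le_norm_self _ _).trans ?_
      exact hdom w hw
    · refine hae.mono fun w hw => ?_
      refine tendsto_const_nhds.congr' ?_
      have h8 : ∀ᶠ ε : ℝ in 𝓝[>] 0, ε < N w :=
        (gt_mem_nhds (hN0 w hw)).filter_mono nhdsWithin_le_nhds
      filter_upwards [h8] with ε hε
      rw [indicator_of_mem (show w ∈ {w : Vd d | ε ≤ N w} from hε.le)]
  refine (hlim.const_mul (1 / 2)).congr' ?_
  filter_upwards [self_mem_nhdsWithin] with ε hε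
  exact (hhalf ε hε).symm

end KD.IV
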